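import Pool.Agent.Helper54_QE.Defs2

/-!
# Module BOX: the boundary of a box is small
-/

set_option autoImplicit false
set_option linter.unusedSectionVars false

open scoped InnerProductSpace ComplexConjugate Topology ENNReal
open MeasureTheory Filter

noncomputable section

namespace Pool.Agent.Helper55_QE

open Pool.Agent.Anderson Pool.Agent.Helper54.Bal Pool.Agent.QE

theorem card_bx (d L : ℕ) : (bx d L).card = (2 * L + 1) ^ d := by
  unfold bx
  rw [Fintype.card_piFinset]
  simp only [Int.card_Icc, Finset.prod_const, Finset.card_univ, Fintype.card_fin]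
  congr 1
  omega

theorem mem_bx {d L : ℕ} {x : Site d} : x ∈ bx d L ↔ ∀ i, -(L : ℤ) ≤ x i ∧ x i ≤ L := by
  unfold bx
  simp [Fintype.mem_piFinset, Finset.mem_Icc]

theorem bdry_add (d L : ℕ) :
    (bdry (bx d (L + 1))).card + (bx d L).card ≤ (bx d (L + 1)).card := by
  classical
  have hdisj : Disjoint (bdry (bx d (L + 1))) (bx d L) := by
    rw [Finset.disjoint_left]
    intro x hx hxL
    unfold bdry at hx
    rw [Finset.mem_filter] at hx
    rw [mem_bx] at hxL
    obtain ⟨-, i, hi⟩ := hx
    rcases hi with hi | hi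
    · apply hi
      rw [mem_bx]
      intro j
      have h := hxL j
      rw [Pi.add_apply]
      by_cases hj : j = i
      · subst hj
        rw [Pi.single_eq_same]
        push_cast
        omega
      · rw [Pi.single_eq_of_ne hj]
        push_cast
        omega
    · apply hi
      rw [mem_bx]
      intro j
      have h := hxL j
      rw [Pi.sub_apply]
      by_cases hj : j = i
      · subst hj
        rw [Pi.single_eq_same]
        push_cast
        omega
      · rw [Pi.single_eq_of_ne hj]
        push_cast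
        omega
  rw [← Finset.card_union_of_disjoint hdisj]
  apply Finset.card_le_card
  apply Finset.union_subset
  · unfold bdry
    exact Finset.filter_subset _ _
  · intro x hx
    rw [mem_bx] at hx ⊢
    intro j
    have h := hx j
    push_cast
    omega

theorem box : BoxStatement := by
  intro d
  rw [← tendsto_add_atTop_iff_nat 1]
  have h1 : Tendsto (fun L : ℕ => (2 : ℝ) / (2 * (L : ℝ) + 3)) atTop (𝓝 0) := by
    apply Tendsto.div_atTop tendsto_const_nhds
    apply tendsto_atTop_add_const_right
    exact tendsto_natCast_atTop_atTop.const_mul_atTop (by norm_num)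
  have h2 : Tendsto (fun L : ℕ => 1 - (1 - (2 : ℝ) / (2 * (L : ℝ) + 3)) ^ d) atTop (𝓝 0) := by
    have := ((h1.const_sub 1).pow d).const_sub 1
    simpa using this
  refine squeeze_zero (fun L => by positivity) (fun L => ?_) h2
  have h3 := bdry_add d L
  rw [card_bx, card_bx] at h3
  rw [card_bx]
  have h4 : ((bdry (bx d (L + 1))).card : ℝ) + (2 * (L : ℝ) + 1) ^ d ≤
      (2 * (L : ℝ) + 3) ^ d := by
    have h5 : (((bdry (bx d (L + 1))).card + (2 * L + 1) ^ d : ℕ) : ℝ) ≤
      (((2 * (L + 1) + 1) ^ d : ℕ) : ℝ) := by exact_mod_cast h3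
    push_cast at h5
    have e : (2 * ((L : ℝ) + 1) + 1) = 2 * (L : ℝ) + 3 := by ring
    rw [e] at h5
    exact h5
  have hp : (0 : ℝ) < 2 * (L : ℝ) + 3 := by positivity
  have e1 : (1 - (2 : ℝ) / (2 * (L : ℝ) + 3)) = (2 * (L : ℝ) + 1) / (2 * (L : ℝ) + 3) := by
    field_simp
    ring
  rw [e1, div_pow]
  have hpd : (0 : ℝ) < (2 * (L : ℝ) + 3) ^ d := by positivity
  have e2 : (((2 * (L + 1) + 1) ^ d : ℕ) : ℝ) = (2 * (L : ℝ) + 3) ^ d := by
    push_cast
    congr 1
    ring
  rw [e2, div_le_iff₀ hpd, sub_mul, div_mul_cancel₀ _ hpd.ne', one_mul]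
  linarith

end Pool.Agent.Helper55_QE
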