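import Pool.Agent.Helper55_QE.FVa

/-!
# Module FV: the finite volume inequality
-/

set_option autoImplicit false
set_option linter.unusedSectionVars false

open scoped InnerProductSpace ComplexConjugate Topology ENNReal
open MeasureTheory Filter

noncomputable section

namespace Pool.Agent.Helper55_QE

open Pool.Agent.Anderson Pool.Agent.Helper54.Bal Pool.Agent.QE

variable {d : ℕ}

theorem sq_add_le (x y : ℂ) : ‖x + y‖ ^ 2 ≤ 2 * ‖x‖ ^ 2 + 2 * ‖y‖ ^ 2 := by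
  have h := norm_add_le x y
  have h0 := norm_nonneg (x + y)
  nlinarith [sq_nonneg (‖x‖ - ‖y‖), norm_nonneg x, norm_nonneg y]

theorem sq_sub_le (x y : ℂ) {t : ℝ} (ht : 0 < t) :
    ‖x - y‖ ^ 2 ≤ (1 + t) * ‖x‖ ^ 2 + (1 + t⁻¹) * ‖y‖ ^ 2 := by
  have h := norm_sub_le x y
  have h0 := norm_nonneg (x - y)
  have h1 : 2 * (‖x‖ * ‖y‖) ≤ t * ‖x‖ ^ 2 + t⁻¹ * ‖y‖ ^ 2 := by
    have h2 : 0 ≤ t⁻¹ * (t * ‖x‖ - ‖y‖) ^ 2 := by positivity
    have h3 : t⁻¹ * (t * ‖x‖ - ‖y‖) ^ 2 =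
        t * ‖x‖ ^ 2 + t⁻¹ * ‖y‖ ^ 2 - 2 * (‖x‖ * ‖y‖) := by
      field_simp
      ring
    linarith
  nlinarith [norm_nonneg x, norm_nonneg y]

theorem sq_sum_le (M : ℕ) (x : ℕ → ℂ) :
    ‖∑ n ∈ Finset.range M, x n‖ ^ 2 ≤ (M : ℝ) * ∑ n ∈ Finset.range M, ‖x n‖ ^ 2 := by
  have h1 := norm_sum_le (Finset.range M) x
  have h2 : (∑ n ∈ Finset.range M, ‖x n‖) ^ 2 ≤
      ((Finset.range M).card : ℝ) * ∑ n ∈ Finset.range M, ‖x n‖ ^ 2 :=
    sq_sum_le_card_mul_sum_sq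
  rw [Finset.card_range] at h2
  refine le_trans ?_ h2
  gcongr

theorem pow_sub_le {a b : ℂ} (ha : ‖a‖ = 1) (hb : ‖b‖ = 1) (n : ℕ) :
    ‖a ^ n - b ^ n‖ ≤ n * ‖a - b‖ := by
  induction n with
  | zero => simp
  | succ n ih =>
    have e : a ^ (n + 1) - b ^ (n + 1) = a * (a ^ n - b ^ n) + (a - b) * b ^ n := by ring
    rw [e]
    refine (norm_add_le _ _).trans ?_
    rw [norm_mul, norm_mul, ha, norm_pow, hb, one_pow, mul_one, one_mul]
    push_cast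
    linarith

/-- the averaged phase -/
def kap (N : ℕ) (u v : ℂ) : ℂ :=
  ((N : ℂ) + 1)⁻¹ * ∑ n ∈ Finset.range (N + 1), conj (v ^ n) * u ^ n

theorem kap_self (N : ℕ) {u : ℂ} (hu : ‖u‖ = 1) : kap N u u = 1 := by
  unfold kap
  have h : ∀ n ∈ Finset.range (N + 1), conj (u ^ n) * u ^ n = 1 := by
    intro n _
    rw [Complex.conj_mul', norm_pow, hu]
    simp
  rw [Finset.sum_congr rfl h]
  simp only [Finset.sum_const, Finset.card_range, nsmul_eq_mul, mul_one]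
  push_cast
  apply inv_mul_cancel₀
  have : ((N : ℂ) + 1) = ((N + 1 : ℕ) : ℂ) := by push_cast; rfl
  rw [this]
  exact Nat.cast_ne_zero.2 (Nat.succ_ne_zero N)

theorem kap_close (N : ℕ) {u v : ℂ} (hu : ‖u‖ = 1) (hv : ‖v‖ = 1) :
    ‖kap N u v - 1‖ ≤ N * ‖u - v‖ := by
  rw [← kap_self N hv]
  unfold kap
  rw [← mul_sub, ← Finset.sum_sub_distrib, norm_mul, norm_N]
  have h : ∀ n ∈ Finset.range (N + 1), ‖conj (v ^ n) * u ^ n - conj (v ^ n) * v ^ n‖ ≤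
      N * ‖u - v‖ := by
    intro n hn
    rw [← mul_sub, norm_mul, RCLike.norm_conj, norm_pow, hv, one_pow, one_mul]
    refine (pow_sub_le hu hv n).trans ?_
    have : (n : ℝ) ≤ N := by
      have := Finset.mem_range.1 hn
      exact_mod_cast Nat.lt_succ_iff.1 this
    gcongr
  have h2 := (norm_sum_le _ _).trans (Finset.sum_le_sum h)
  rw [Finset.sum_const, Finset.card_range, nsmul_eq_mul] at h2
  push_cast at h2
  have hp : (0 : ℝ) < (N : ℝ) + 1 := by positivity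
  calc ((N : ℝ) + 1)⁻¹ * _ ≤ ((N : ℝ) + 1)⁻¹ * (((N : ℝ) + 1) * (N * ‖u - v‖)) := by gcongr
    _ = N * ‖u - v‖ := by field_simp

section Main

variable {V : Cfg d} {Λ : Finset (Site d)} {B : Op d} {C : ℝ} {n : ℕ} {φ : Fin n → L2 d}
  {E : Fin n → ℝ} {N : ℕ} {p q : RF}

/-- matrix elements of the averaged operator -/
def TT (V : Cfg d) (B : Op d) (N : ℕ) (p q : RF) (φ : Fin n → L2 d) (j k : Fin n) : ℂ :=
  ⟪φ k, (avg V N B - q.op V) (p.op V (φ j))⟫_ℂ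

/-- the model matrix -/
def MM (B : Op d) (N : ℕ) (q : RF) (φ : Fin n → L2 d) (E : Fin n → ℝ) (j k : Fin n) : ℂ :=
  kap N (cu (E j)) (cu (E k)) * ⟪φ k, B (φ j)⟫_ℂ - (if j = k then q.ev (E j) else 0)

/-- first error vector -/
def aa (V : Cfg d) (B : Op d) (N : ℕ) (p q : RF) (φ : Fin n → L2 d) (E : Fin n → ℝ)
    (j : Fin n) : L2 d :=
  (avg V N B - q.op V) (p.op V (φ j) - p.ev (E j) • φ j) -
    p.ev (E j) • (q.op V (φ j) - q.ev (E j) • φ j)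

/-- second error -/
def XX (V : Cfg d) (B : Op d) (N : ℕ) (p : RF) (φ : Fin n → L2 d) (E : Fin n → ℝ) (m : ℕ)
    (j k : Fin n) : ℂ :=
  p.ev (E j) * (((N : ℂ) + 1)⁻¹ * (conj (cu (E k) ^ m) * ⟪φ k, B (er V (E j) (φ j) m)⟫_ℂ))

/-- third error -/
def YY (V : Cfg d) (B : Op d) (N : ℕ) (p : RF) (φ : Fin n → L2 d) (E : Fin n → ℝ) (m : ℕ)
    (j k : Fin n) : ℂ :=
  p.ev (E j) * (((N : ℂ) + 1)⁻¹ * ⟪er V (E k) (φ k) m, B ((cay V ^ m) (φ j))⟫_ℂ)

/-- the total error -/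
def ZZ (V : Cfg d) (B : Op d) (N : ℕ) (p q : RF) (φ : Fin n → L2 d) (E : Fin n → ℝ)
    (j k : Fin n) : ℂ :=
  ⟪φ k, aa V B N p q φ E j⟫_ℂ +
    ∑ m ∈ Finset.range (N + 1), (XX V B N p φ E m j k + YY V B N p φ E m j k)

theorem cay_pow_eq (V : Cfg d) (e : ℝ) (f : L2 d) (m : ℕ) :
    (cay V ^ m) f = er V e f m + cu e ^ m • f := by
  unfold er; abel

theorem decomp (hφ : Orthonormal ℂ φ) (j k : Fin n) :
    TT V B N p q φ j k = p.ev (E j) * MM B N q φ E j k + ZZ V B N p q φ E j k := by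
  have hjk : ⟪φ k, φ j⟫_ℂ = if j = k then 1 else 0 := by
    rw [orthonormal_iff_ite.1 hφ k j]
    by_cases h : j = k
    · rw [if_pos h, if_pos h.symm]
    · rw [if_neg h, if_neg (Ne.symm h)]
  have havg : ⟪φ k, avg V N B (φ j)⟫_ℂ = kap N (cu (E j)) (cu (E k)) * ⟪φ k, B (φ j)⟫_ℂ +
      ∑ m ∈ Finset.range (N + 1),
        (((N : ℂ) + 1)⁻¹ * (conj (cu (E k) ^ m) * ⟪φ k, B (er V (E j) (φ j) m)⟫_ℂ) +
        ((N : ℂ) + 1)⁻¹ * ⟪er V (E k) (φ k) m, B ((cay V ^ m) (φ j))⟫_ℂ) := by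
    rw [inner_avg]
    unfold kap
    rw [mul_assoc, Finset.sum_mul, Finset.mul_sum, Finset.mul_sum, ← Finset.sum_add_distrib]
    apply Finset.sum_congr rfl
    intro m _
    have e1 : ⟪(cay V ^ m) (φ k), B ((cay V ^ m) (φ j))⟫_ℂ =
        ⟪er V (E k) (φ k) m, B ((cay V ^ m) (φ j))⟫_ℂ +
        conj (cu (E k) ^ m) * ⟪φ k, B (er V (E j) (φ j) m)⟫_ℂ +
        conj (cu (E k) ^ m) * cu (E j) ^ m * ⟪φ k, B (φ j)⟫_ℂ := by
      conv_lhs => rw [cay_pow_eq V (E k) (φ k) m, inner_add_left, inner_smul_left]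
      have e2 : ⟪φ k, B ((cay V ^ m) (φ j))⟫_ℂ = ⟪φ k, B (er V (E j) (φ j) m)⟫_ℂ +
          cu (E j) ^ m * ⟪φ k, B (φ j)⟫_ℂ := by
        rw [cay_pow_eq V (E j) (φ j) m, map_add, map_smul, inner_add_right, inner_smul_right]
      rw [e2]
      ring
    rw [e1]
    ring
  have h1 : TT V B N p q φ j k = ⟪φ k, aa V B N p q φ E j⟫_ℂ +
      p.ev (E j) * (⟪φ k, avg V N B (φ j)⟫_ℂ - q.ev (E j) * ⟪φ k, φ j⟫_ℂ) := by
    unfold TT aa
    have e3 : (avg V N B - q.op V) (p.op V (φ j)) =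
        ((avg V N B - q.op V) (p.op V (φ j) - p.ev (E j) • φ j) -
          p.ev (E j) • (q.op V (φ j) - q.ev (E j) • φ j)) +
        p.ev (E j) • (avg V N B (φ j) - q.ev (E j) • φ j) := by
      rw [map_sub, map_smul, _root_.sub_apply (avg V N B) (q.op V) (φ j)]
      module
    conv_lhs => rw [e3]
    rw [inner_add_right, inner_smul_right, inner_sub_right (φ k) (avg V N B (φ j)),
      inner_smul_right]
  rw [h1, havg, hjk]
  unfold MM ZZ XX YY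
  have e4 : ∑ m ∈ Finset.range (N + 1),
      (p.ev (E j) * (((N : ℂ) + 1)⁻¹ *
        (conj (cu (E k) ^ m) * ⟪φ k, B (er V (E j) (φ j) m)⟫_ℂ)) +
      p.ev (E j) * (((N : ℂ) + 1)⁻¹ * ⟪er V (E k) (φ k) m, B ((cay V ^ m) (φ j))⟫_ℂ)) =
      p.ev (E j) * ∑ m ∈ Finset.range (N + 1),
        (((N : ℂ) + 1)⁻¹ * (conj (cu (E k) ^ m) * ⟪φ k, B (er V (E j) (φ j) m)⟫_ℂ) +
        ((N : ℂ) + 1)⁻¹ * ⟪er V (E k) (φ k) m, B ((cay V ^ m) (φ j))⟫_ℂ) := by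
    rw [Finset.mul_sum]
    apply Finset.sum_congr rfl
    intro m _
    ring
  rw [e4]
  by_cases h : j = k
  · rw [if_pos h, if_pos h]; ring
  · rw [if_neg h, if_neg h]; ring

theorem sum_TT (hφ : Orthonormal ℂ φ) (hs : ∀ j, ∀ x ∉ Λ, φ j x = 0) :
    ∑ j, ∑ k, ‖TT V B N p q φ j k‖ ^ 2 ≤
      ∑ x ∈ Λ, ‖(avg V N B - q.op V) (p.op V (del x))‖ ^ 2 := by
  have h1 : ∀ j, ∑ k, ‖TT V B N p q φ j k‖ ^ 2 ≤
      ‖((avg V N B - q.op V) * p.op V) (φ j)‖ ^ 2 := fun j => bessel hφ _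
  refine (Finset.sum_le_sum fun j _ => h1 j).trans ?_
  exact trace_le hφ Λ hs ((avg V N B - q.op V) * p.op V)

theorem norm_aa (hB : ‖B‖ ≤ C) (h : ∀ j, IsBoxEigen V Λ (E j) (φ j)) (j : Fin n) :
    ‖aa V B N p q φ E j‖ ≤
      ((C + bd1 q) * bd2 p + bd1 p * bd2 q) * ‖defect Λ (φ j)‖ := by
  have hC : 0 ≤ C := (norm_nonneg B).trans hB
  unfold aa
  refine (norm_sub_le _ _).trans ?_
  rw [add_mul]
  apply add_le_add
  · rw [_root_.sub_apply]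
    refine (norm_sub_le _ _).trans ?_
    have h1 := norm_avg_le V N B hB (p.op V (φ j) - p.ev (E j) • φ j)
    have h2 := norm_op_le q V (p.op V (φ j) - p.ev (E j) • φ j)
    have h3 := norm_op_box (h j) p
    have h4 : (C + bd1 q) * ‖p.op V (φ j) - p.ev (E j) • φ j‖ ≤
        (C + bd1 q) * (bd2 p * ‖defect Λ (φ j)‖) := by
      have := bd1_nonneg q
      gcongr
    linarith
  · rw [norm_smul, mul_assoc]
    have h3 := norm_op_box (h j) q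
    have h4 := norm_ev_le p (E j)
    have := bd1_nonneg p
    gcongr

theorem norm_N_le (N : ℕ) : ‖((N : ℂ) + 1)⁻¹‖ ≤ 1 := by
  rw [norm_N]
  apply inv_le_one_of_one_le₀
  have : (0 : ℝ) ≤ N := Nat.cast_nonneg N
  linarith

theorem norm_XX (j k : Fin n) (m : ℕ) :
    ‖XX V B N p φ E m j k‖ ≤ bd1 p * ‖⟪φ k, B (er V (E j) (φ j) m)⟫_ℂ‖ := by
  unfold XX
  rw [norm_mul, norm_mul, norm_mul, RCLike.norm_conj, norm_pow, norm_cu, one_pow, one_mul]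
  have h1 := norm_ev_le p (E j)
  have h2 := norm_N_le N
  have h3 := bd1_nonneg p
  calc ‖p.ev (E j)‖ * (‖((N : ℂ) + 1)⁻¹‖ * ‖⟪φ k, B (er V (E j) (φ j) m)⟫_ℂ‖)
      ≤ bd1 p * (1 * ‖⟪φ k, B (er V (E j) (φ j) m)⟫_ℂ‖) := by gcongr
    _ = _ := by ring

theorem norm_YY (j k : Fin n) (m : ℕ) :
    ‖YY V B N p φ E m j k‖ ≤ bd1 p * ‖⟪er V (E k) (φ k) m, B ((cay V ^ m) (φ j))⟫_ℂ‖ := by
  unfold YY
  rw [norm_mul, norm_mul]
  have h1 := norm_ev_le p (E j)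
  have h2 := norm_N_le N
  have h3 := bd1_nonneg p
  calc ‖p.ev (E j)‖ * (‖((N : ℂ) + 1)⁻¹‖ * ‖⟪er V (E k) (φ k) m, B ((cay V ^ m) (φ j))⟫_ℂ‖)
      ≤ bd1 p * (1 * ‖⟪er V (E k) (φ k) m, B ((cay V ^ m) (φ j))⟫_ℂ‖) := by gcongr
    _ = _ := by ring

theorem norm_er_le (h : ∀ j, IsBoxEigen V Λ (E j) (φ j)) (j : Fin n) {m : ℕ}
    (hm : m ∈ Finset.range (N + 1)) : ‖er V (E j) (φ j) m‖ ≤ 2 * N * ‖defect Λ (φ j)‖ := by
  refine (norm_er (h j) m).trans ?_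
  have : (m : ℝ) ≤ N := by
    have := Finset.mem_range.1 hm
    exact_mod_cast Nat.lt_succ_iff.1 this
  gcongr

theorem sum_XX (hφ : Orthonormal ℂ φ) (hB : ‖B‖ ≤ C) (h : ∀ j, IsBoxEigen V Λ (E j) (φ j))
    {m : ℕ} (hm : m ∈ Finset.range (N + 1)) :
    ∑ j, ∑ k, ‖XX V B N p φ E m j k‖ ^ 2 ≤
      (bd1 p * C * (2 * N)) ^ 2 * ∑ j, ‖defect Λ (φ j)‖ ^ 2 := by
  have hC : 0 ≤ C := (norm_nonneg B).trans hB
  rw [Finset.mul_sum]
  apply Finset.sum_le_sum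
  intro j _
  have h1 : ∑ k, ‖XX V B N p φ E m j k‖ ^ 2 ≤
      bd1 p ^ 2 * ‖B (er V (E j) (φ j) m)‖ ^ 2 := by
    refine le_trans ?_ (mul_le_mul_of_nonneg_left (bessel hφ _) (by positivity))
    rw [Finset.mul_sum]
    apply Finset.sum_le_sum
    intro k _
    rw [← mul_pow]
    have := norm_XX (V := V) (B := B) (N := N) (p := p) (φ := φ) (E := E) j k m
    gcongr
  refine h1.trans ?_
  rw [← mul_pow, ← mul_pow]
  have h2 : ‖B (er V (E j) (φ j) m)‖ ≤ C * (2 * N * ‖defect Λ (φ j)‖) := by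
    refine (B.le_opNorm _).trans ?_
    have := norm_er_le h j hm
    gcongr
  have h3 := bd1_nonneg p
  have h4 : bd1 p * ‖B (er V (E j) (φ j) m)‖ ≤ bd1 p * C * (2 * N) * ‖defect Λ (φ j)‖ := by
    calc _ ≤ bd1 p * (C * (2 * N * ‖defect Λ (φ j)‖)) := by gcongr
      _ = _ := by ring
  have h5 : 0 ≤ bd1 p * ‖B (er V (E j) (φ j) m)‖ := by positivity
  gcongr

theorem sum_YY (hφ : Orthonormal ℂ φ) (hB : ‖B‖ ≤ C) (h : ∀ j, IsBoxEigen V Λ (E j) (φ j))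
    {m : ℕ} (hm : m ∈ Finset.range (N + 1)) :
    ∑ j, ∑ k, ‖YY V B N p φ E m j k‖ ^ 2 ≤
      (bd1 p * C * (2 * N)) ^ 2 * ∑ j, ‖defect Λ (φ j)‖ ^ 2 := by
  have hC : 0 ≤ C := (norm_nonneg B).trans hB
  rw [Finset.sum_comm, Finset.mul_sum]
  apply Finset.sum_le_sum
  intro k _
  set X : Op d := B * cay V ^ m with hX
  have hXn : ‖X‖ ≤ C := by
    refine X.opNorm_le_bound hC fun f => ?_
    change ‖B ((cay V ^ m) f)‖ ≤ _
    refine (B.le_opNorm _).trans ?_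
    rw [norm_cay_pow]
    gcongr
  set v := ContinuousLinearMap.adjoint X (er V (E k) (φ k) m) with hv
  have h1 : ∑ j, ‖YY V B N p φ E m j k‖ ^ 2 ≤ bd1 p ^ 2 * ‖v‖ ^ 2 := by
    refine le_trans ?_ (mul_le_mul_of_nonneg_left (bessel' hφ _) (by positivity))
    rw [Finset.mul_sum]
    apply Finset.sum_le_sum
    intro j _
    rw [← mul_pow]
    have := norm_YY (V := V) (B := B) (N := N) (p := p) (φ := φ) (E := E) j k m
    have e : ⟪v, φ j⟫_ℂ = ⟪er V (E k) (φ k) m, B ((cay V ^ m) (φ j))⟫_ℂ := by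
      rw [hv, ContinuousLinearMap.adjoint_inner_left, hX]
      rfl
    rw [e]
    gcongr
  refine h1.trans ?_
  rw [← mul_pow, ← mul_pow]
  have h2 : ‖v‖ ≤ C * (2 * N * ‖defect Λ (φ k)‖) := by
    refine (ContinuousLinearMap.le_opNorm _ _).trans ?_
    rw [LinearIsometryEquiv.norm_map]
    have := norm_er_le h k hm
    gcongr
  have h3 := bd1_nonneg p
  have h4 : bd1 p * ‖v‖ ≤ bd1 p * C * (2 * N) * ‖defect Λ (φ k)‖ := by
    calc _ ≤ bd1 p * (C * (2 * N * ‖defect Λ (φ k)‖)) := by gcongr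
      _ = _ := by ring
  have h5 : 0 ≤ bd1 p * ‖v‖ := by positivity
  gcongr

theorem sum_ZZ (hφ : Orthonormal ℂ φ) (hB : ‖B‖ ≤ C)
    (h : ∀ j, IsBoxEigen V Λ (E j) (φ j)) :
    ∑ j, ∑ k, ‖ZZ V B N p q φ E j k‖ ^ 2 ≤
      (2 * ((C + bd1 q) * bd2 p + bd1 p * bd2 q) ^ 2 +
        2 * ((N + 1 : ℝ) * ((N + 1 : ℝ) * (4 * (bd1 p * C * (2 * N)) ^ 2)))) *
        ∑ j, ‖defect Λ (φ j)‖ ^ 2 := by
  set R := ∑ j, ‖defect Λ (φ j)‖ ^ 2 with hR
  set ka := ((C + bd1 q) * bd2 p + bd1 p * bd2 q) with hka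
  set kb := (bd1 p * C * (2 * N)) ^ 2 with hkb
  have hA : ∑ j, ∑ k, ‖⟪φ k, aa V B N p q φ E j⟫_ℂ‖ ^ 2 ≤ ka ^ 2 * R := by
    rw [hR, Finset.mul_sum]
    apply Finset.sum_le_sum
    intro j _
    refine (bessel hφ _).trans ?_
    rw [← mul_pow]
    have := norm_aa (N := N) (p := p) (q := q) hB h j
    gcongr
  have hX : ∀ m ∈ Finset.range (N + 1),
      ∑ j, ∑ k, ‖XX V B N p φ E m j k + YY V B N p φ E m j k‖ ^ 2 ≤ 4 * kb * R := by
    intro m hm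
    have h1 := sum_XX (p := p) hφ hB h hm
    have h2 := sum_YY (p := p) hφ hB h hm
    rw [← hkb, ← hR] at h1 h2
    have h3 : ∑ j, ∑ k, ‖XX V B N p φ E m j k + YY V B N p φ E m j k‖ ^ 2 ≤
        2 * ∑ j, ∑ k, ‖XX V B N p φ E m j k‖ ^ 2 +
        2 * ∑ j, ∑ k, ‖YY V B N p φ E m j k‖ ^ 2 := by
      rw [Finset.mul_sum, Finset.mul_sum, ← Finset.sum_add_distrib]
      apply Finset.sum_le_sum
      intro j _
      rw [Finset.mul_sum, Finset.mul_sum, ← Finset.sum_add_distrib]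
      apply Finset.sum_le_sum
      intro k _
      exact sq_add_le _ _
    linarith
  have hS : ∑ j, ∑ k, ‖∑ m ∈ Finset.range (N + 1),
      (XX V B N p φ E m j k + YY V B N p φ E m j k)‖ ^ 2 ≤
      (N + 1 : ℝ) * ((N + 1 : ℝ) * (4 * kb * R)) := by
    have h1 : ∑ j, ∑ k, ‖∑ m ∈ Finset.range (N + 1),
        (XX V B N p φ E m j k + YY V B N p φ E m j k)‖ ^ 2 ≤
        ∑ j, ∑ k, ((N + 1 : ℝ) * ∑ m ∈ Finset.range (N + 1),
          ‖XX V B N p φ E m j k + YY V B N p φ E m j k‖ ^ 2) := by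
      apply Finset.sum_le_sum
      intro j _
      apply Finset.sum_le_sum
      intro k _
      have := sq_sum_le (N + 1) (fun m => XX V B N p φ E m j k + YY V B N p φ E m j k)
      push_cast at this
      exact this
    refine h1.trans ?_
    simp only [← Finset.mul_sum]
    have h2 : ∑ j, ∑ k, ∑ m ∈ Finset.range (N + 1),
        ‖XX V B N p φ E m j k + YY V B N p φ E m j k‖ ^ 2 =
        ∑ m ∈ Finset.range (N + 1), ∑ j, ∑ k,
        ‖XX V B N p φ E m j k + YY V B N p φ E m j k‖ ^ 2 := by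
      rw [Finset.sum_comm]
      simp only [Finset.sum_comm (s := Finset.range (N + 1))]
      rw [Finset.sum_comm]
    rw [h2]
    have h3 := Finset.sum_le_sum hX
    rw [Finset.sum_const, Finset.card_range, nsmul_eq_mul] at h3
    push_cast at h3
    gcongr
  have hT : ∑ j, ∑ k, ‖ZZ V B N p q φ E j k‖ ^ 2 ≤
      2 * ∑ j, ∑ k, ‖⟪φ k, aa V B N p q φ E j⟫_ℂ‖ ^ 2 +
      2 * ∑ j, ∑ k, ‖∑ m ∈ Finset.range (N + 1),
        (XX V B N p φ E m j k + YY V B N p φ E m j k)‖ ^ 2 := by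
    rw [Finset.mul_sum, Finset.mul_sum, ← Finset.sum_add_distrib]
    apply Finset.sum_le_sum
    intro j _
    rw [Finset.mul_sum, Finset.mul_sum, ← Finset.sum_add_distrib]
    apply Finset.sum_le_sum
    intro k _
    exact sq_add_le _ _
  nlinarith

end Main

theorem fv : FVStatement := by
  intro d C N p q θ hθ
  set t : ℝ := min θ 1 / 3 with ht
  have ht0 : 0 < t := by
    rw [ht]
    have : 0 < min θ 1 := lt_min hθ one_pos
    positivity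
  have htθ : 3 * t ≤ θ := by
    rw [ht]
    have := min_le_left θ 1
    linarith
  have ht1 : 3 * t ≤ 1 := by
    rw [ht]
    have := min_le_right θ 1
    linarith
  have hN : (0 : ℝ) < (N : ℝ) + 1 := by positivity
  set η : ℝ := t / (8 * ((N : ℝ) + 1)) with hη
  have hη0 : 0 < η := by rw [hη]; positivity
  set K1 : ℝ := (2 * ((C + bd1 q) * bd2 p + bd1 p * bd2 q) ^ 2 +
        2 * ((N + 1 : ℝ) * ((N + 1 : ℝ) * (4 * (bd1 p * C * (2 * N)) ^ 2)))) with hK1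
  refine ⟨η, (1 + t) * (1 + t⁻¹) * (K1 * ‖Lap d‖ ^ 2), hη0, ?_⟩
  intro V Λ B hB n φ E hφ h
  have hC : 0 ≤ C := (norm_nonneg B).trans hB
  have hpt : ∀ j k, (if |E j - E k| ≤ η then
      ‖p.ev (E j)‖ ^ 2 * ‖⟪φ k, B (φ j)⟫_ℂ - (if j = k then q.ev (E j) else 0)‖ ^ 2 else 0) ≤
      (1 + t) * ((1 + t) * ‖TT V B N p q φ j k‖ ^ 2 +
        (1 + t⁻¹) * ‖ZZ V B N p q φ E j k‖ ^ 2) := by
    intro j k
    by_cases hjk : |E j - E k| ≤ η
    · rw [if_pos hjk]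
      have hd := decomp (V := V) (B := B) (N := N) (p := p) (q := q) (E := E) hφ j k
      have hM : ‖p.ev (E j) * MM B N q φ E j k‖ ^ 2 ≤
          (1 + t) * ‖TT V B N p q φ j k‖ ^ 2 + (1 + t⁻¹) * ‖ZZ V B N p q φ E j k‖ ^ 2 := by
        have : p.ev (E j) * MM B N q φ E j k = TT V B N p q φ j k - ZZ V B N p q φ E j k := by
          rw [hd]; ring
        rw [this]
        exact sq_sub_le _ _ ht0
      have hD : ‖⟪φ k, B (φ j)⟫_ℂ - (if j = k then q.ev (E j) else 0)‖ ^ 2 ≤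
          (1 + t) * ‖MM B N q φ E j k‖ ^ 2 := by
        by_cases hjk' : j = k
        · subst hjk'
          unfold MM
          rw [kap_self N (norm_cu _), one_mul]
          have h5 : 0 ≤ ‖⟪φ j, B (φ j)⟫_ℂ - (if j = j then q.ev (E j) else 0)‖ ^ 2 := by
            positivity
          nlinarith
        · unfold MM
          rw [if_neg hjk', sub_zero, sub_zero, norm_mul, mul_pow]
          have h1 := kap_close N (norm_cu (E j)) (norm_cu (E k))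
          have h2 := cu_sub (E j) (E k)
          have h3 : (N : ℝ) * ‖cu (E j) - cu (E k)‖ ≤ t / 4 := by
            calc (N : ℝ) * ‖cu (E j) - cu (E k)‖ ≤ ((N : ℝ) + 1) * (2 * η) := by
                  have : (N : ℝ) ≤ (N : ℝ) + 1 := by linarith
                  have h4 : ‖cu (E j) - cu (E k)‖ ≤ 2 * η := by linarith
                  gcongr
              _ = t / 4 := by
                  rw [hη]
                  field_simp
                  ring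
          have h4 : 1 - t / 4 ≤ ‖kap N (cu (E j)) (cu (E k))‖ := by
            have h5 := norm_sub_norm_le (1 : ℂ) (kap N (cu (E j)) (cu (E k)))
            rw [norm_one, norm_sub_rev] at h5
            linarith
          have h6 : 1 - t / 2 ≤ ‖kap N (cu (E j)) (cu (E k))‖ ^ 2 := by nlinarith
          have h7 : 1 ≤ (1 + t) * ‖kap N (cu (E j)) (cu (E k))‖ ^ 2 := by nlinarith
          have h8 : 0 ≤ ‖⟪φ k, B (φ j)⟫_ℂ‖ ^ 2 := by positivity
          nlinarith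
      calc ‖p.ev (E j)‖ ^ 2 * ‖⟪φ k, B (φ j)⟫_ℂ - (if j = k then q.ev (E j) else 0)‖ ^ 2
          ≤ ‖p.ev (E j)‖ ^ 2 * ((1 + t) * ‖MM B N q φ E j k‖ ^ 2) := by gcongr
        _ = (1 + t) * ‖p.ev (E j) * MM B N q φ E j k‖ ^ 2 := by
            rw [norm_mul, mul_pow]; ring
        _ ≤ _ := by gcongr
    · rw [if_neg hjk]
      positivity
  refine (Finset.sum_le_sum fun j _ => Finset.sum_le_sum fun k _ => hpt j k).trans ?_
  simp only [← Finset.mul_sum, Finset.sum_add_distrib]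
  have hs : ∀ j, ∀ x ∉ Λ, φ j x = 0 := fun j => (h j).1
  have h1 := sum_TT (V := V) (B := B) (N := N) (p := p) (q := q) hφ hs
  have h2 := sum_ZZ (N := N) (p := p) (q := q) hφ hB h
  rw [← hK1] at h2
  have h3 := sum_defect (Λ := Λ) hφ
  have hK10 : 0 ≤ K1 := by rw [hK1]; positivity
  have hti : 0 ≤ t⁻¹ := by positivity
  have h4 : (1 + t) * (1 + t) ≤ 1 + θ := by nlinarith
  have h5 : 0 ≤ ∑ x ∈ Λ, ‖(avg V N B - q.op V) (p.op V (del x))‖ ^ 2 := by positivity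
  calc (1 + t) * ((1 + t) * ∑ j, ∑ k, ‖TT V B N p q φ j k‖ ^ 2 +
        (1 + t⁻¹) * ∑ j, ∑ k, ‖ZZ V B N p q φ E j k‖ ^ 2)
      ≤ (1 + t) * ((1 + t) * ∑ x ∈ Λ, ‖(avg V N B - q.op V) (p.op V (del x))‖ ^ 2 +
        (1 + t⁻¹) * (K1 * (‖Lap d‖ ^ 2 * ((bdry Λ).card : ℝ)))) := by
        have h6 : ∑ j, ∑ k, ‖ZZ V B N p q φ E j k‖ ^ 2 ≤
            K1 * (‖Lap d‖ ^ 2 * ((bdry Λ).card : ℝ)) := h2.trans (by gcongr)
        gcongr
    _ = (1 + t) * (1 + t) * ∑ x ∈ Λ, ‖(avg V N B - q.op V) (p.op V (del x))‖ ^ 2 +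
        (1 + t) * (1 + t⁻¹) * (K1 * ‖Lap d‖ ^ 2) * ((bdry Λ).card : ℝ) := by ring
    _ ≤ _ := by gcongr

end Pool.Agent.Helper55_QE
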