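import Pool.Agent.Helper54_QE.Defs2

/-!
# Module FV, part 1: projections, the Cayley transform, box eigenvectors
-/

set_option autoImplicit false
set_option linter.unusedSectionVars false

open scoped InnerProductSpace ComplexConjugate Topology ENNReal
open MeasureTheory Filter

noncomputable section

namespace Pool.Agent.Helper55_QE

open Pool.Agent.Anderson Pool.Agent.Helper54.Bal Pool.Agent.QE

variable {d : ℕ}

/-! ### restriction to a finite set -/

open Classical in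
/-- restriction to a set of sites -/
def res (S : Set (Site d)) : Op d :=
  mulOp (fun x => if x ∈ S then (1 : ℂ) else 0) 1 (fun x => by split_ifs <;> simp)

open Classical in
theorem res_apply (S : Set (Site d)) (f : L2 d) (x : Site d) :
    res S f x = if x ∈ S then f x else 0 := by
  unfold res
  rw [mulOp_apply]
  split_ifs <;> simp

theorem inner_res (S : Set (Site d)) (f g : L2 d) : ⟪res S f, g⟫_ℂ = ⟪f, res S g⟫_ℂ := by
  classical
  rw [lp.inner_eq_tsum, lp.inner_eq_tsum]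
  apply tsum_congr
  intro x
  rw [res_apply, res_apply]
  split_ifs <;> simp

theorem norm_sq_res (S : Finset (Site d)) (f : L2 d) :
    ‖res (S : Set (Site d)) f‖ ^ 2 = ∑ x ∈ S, ‖f x‖ ^ 2 := by
  classical
  rw [L2.norm_sq, tsum_eq_sum (s := S)]
  · apply Finset.sum_congr rfl
    intro x hx
    rw [res_apply, if_pos (by exact_mod_cast hx)]
  · intro x hx
    rw [res_apply, if_neg (by exact_mod_cast hx)]
    simp

theorem norm_res_le (S : Set (Site d)) (f : L2 d) : ‖res S f‖ ≤ ‖f‖ := by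
  have h0 : ∀ a b : ℝ, 0 ≤ a → 0 ≤ b → a ^ 2 ≤ b ^ 2 → a ≤ b := fun a b ha hb h => by
    nlinarith [sq_nonneg (a - b)]
  refine h0 _ _ (norm_nonneg _) (norm_nonneg _) ?_
  rw [L2.norm_sq, L2.norm_sq f]
  refine Summable.tsum_le_tsum (fun x => ?_) (L2.summable_sq _) (L2.summable_sq f)
  rw [res_apply]
  split_ifs
  · exact le_rfl
  · simp

theorem res_of_supp {S : Set (Site d)} {f : L2 d} (h : ∀ x ∉ S, f x = 0) : res S f = f := by
  ext x
  rw [res_apply]
  split_ifs with hx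
  · rfl
  · rw [h x hx]

/-! ### Bessel inequalities -/

theorem bessel {n : ℕ} {φ : Fin n → L2 d} (hφ : Orthonormal ℂ φ) (v : L2 d) :
    ∑ k, ‖⟪φ k, v⟫_ℂ‖ ^ 2 ≤ ‖v‖ ^ 2 :=
  hφ.sum_inner_products_le v

theorem bessel' {n : ℕ} {φ : Fin n → L2 d} (hφ : Orthonormal ℂ φ) (v : L2 d) :
    ∑ k, ‖⟪v, φ k⟫_ℂ‖ ^ 2 ≤ ‖v‖ ^ 2 := by
  refine le_trans (le_of_eq ?_) (bessel hφ v)
  apply Finset.sum_congr rfl
  intro k _
  rw [← inner_conj_symm, RCLike.norm_conj]

/-- the trace inequality -/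
theorem trace_le {n : ℕ} {φ : Fin n → L2 d} (hφ : Orthonormal ℂ φ) (Λ : Finset (Site d))
    (hs : ∀ j, ∀ x ∉ Λ, φ j x = 0) (X : Op d) :
    ∑ j, ‖X (φ j)‖ ^ 2 ≤ ∑ x ∈ Λ, ‖X (del x)‖ ^ 2 := by
  classical
  have key : ∀ y : Site d, ∑ j, ‖X (φ j) y‖ ^ 2 ≤ ∑ x ∈ Λ, ‖X (del x) y‖ ^ 2 := by
    intro y
    set v : L2 d := res (Λ : Set (Site d)) (ContinuousLinearMap.adjoint X (del y)) with hv
    have h1 : ∀ j, ‖X (φ j) y‖ = ‖⟪v, φ j⟫_ℂ‖ := by
      intro j
      rw [hv, inner_res, res_of_supp (S := (Λ : Set (Site d))) (f := φ j)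
        (fun x hx => hs j x (by exact_mod_cast hx)), ContinuousLinearMap.adjoint_inner_left,
        inner_del_left]
    have h2 : ‖v‖ ^ 2 = ∑ x ∈ Λ, ‖X (del x) y‖ ^ 2 := by
      rw [hv, norm_sq_res]
      apply Finset.sum_congr rfl
      intro x _
      rw [← inner_del_left x, ContinuousLinearMap.adjoint_inner_right, inner_del_right,
        RCLike.norm_conj]
    rw [← h2]
    refine le_trans (le_of_eq ?_) (bessel' hφ v)
    apply Finset.sum_congr rfl
    intro j _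
    rw [h1]
  have e1 : ∑ j, ‖X (φ j)‖ ^ 2 = ∑' y, ∑ j, ‖X (φ j) y‖ ^ 2 := by
    rw [Summable.tsum_finsetSum (fun j _ => L2.summable_sq _)]
    apply Finset.sum_congr rfl
    intro j _
    rw [L2.norm_sq]
  have e2 : ∑ x ∈ Λ, ‖X (del x)‖ ^ 2 = ∑' y, ∑ x ∈ Λ, ‖X (del x) y‖ ^ 2 := by
    rw [Summable.tsum_finsetSum (fun j _ => L2.summable_sq _)]
    apply Finset.sum_congr rfl
    intro j _
    rw [L2.norm_sq]
  rw [e1, e2]
  refine Summable.tsum_le_tsum key ?_ ?_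
  · exact summable_sum fun j _ => L2.summable_sq _
  · exact summable_sum fun j _ => L2.summable_sq _

/-! ### the Cayley transform -/

theorem I_im_ne : (Complex.I).im ≠ 0 := by simp
theorem nI_im_ne : (-Complex.I).im ≠ 0 := by simp

theorem cay_apply (V : Cfg d) (f : L2 d) :
    cay V f = f - (2 * Complex.I) • G V (-Complex.I) f := by
  unfold cay
  simp

theorem cayS_apply (V : Cfg d) (f : L2 d) :
    cayS V f = f + (2 * Complex.I) • G V Complex.I f := by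
  unfold cayS
  simp

theorem inner_cayS (V : Cfg d) (f g : L2 d) : ⟪cayS V f, g⟫_ℂ = ⟪f, cay V g⟫_ℂ := by
  have h := (isRes_G V).adj Complex.I I_im_ne f g
  rw [Complex.conj_I] at h
  rw [cayS_apply, cay_apply, inner_add_left, inner_sub_right, inner_smul_left, inner_smul_right,
    h, map_mul, Complex.conj_I]
  simp only [map_ofNat]
  ring

theorem inner_cay (V : Cfg d) (f g : L2 d) : ⟪cay V f, g⟫_ℂ = ⟪f, cayS V g⟫_ℂ := by
  rw [← inner_conj_symm, ← inner_cayS, inner_conj_symm]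

theorem norm_cay (V : Cfg d) (f : L2 d) : ‖cay V f‖ = ‖f‖ := by
  have h1 := (isRes_G V).im_inner nI_im_ne f
  have h2 : ‖cay V f‖ ^ 2 = ‖f‖ ^ 2 := by
    rw [cay_apply, norm_sub_sq (𝕜 := ℂ), inner_smul_right, norm_smul, mul_pow]
    have e1 : RCLike.re (2 * Complex.I * ⟪f, G V (-Complex.I) f⟫_ℂ) =
        -2 * (⟪f, G V (-Complex.I) f⟫_ℂ).im := by
      simp
    rw [e1, h1]
    simp
    ring
  nlinarith [norm_nonneg (cay V f), norm_nonneg f, sq_nonneg (‖cay V f‖ - ‖f‖)]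

theorem norm_cayS_le (V : Cfg d) (f : L2 d) : ‖cayS V f‖ ≤ ‖f‖ := by
  have h1 : ‖cayS V f‖ ^ 2 ≤ ‖f‖ * ‖cayS V f‖ := by
    have h2 : ‖⟪cayS V f, cayS V f⟫_ℂ‖ = ‖cayS V f‖ ^ 2 := by
      rw [inner_self_eq_norm_sq_to_K]
      simp
    rw [← h2, inner_cayS]
    refine (norm_inner_le_norm _ _).trans ?_
    rw [norm_cay]
  rcases (norm_nonneg (cayS V f)).eq_or_lt with h | h
  · rw [← h]; exact norm_nonneg _
  · have : ‖cayS V f‖ * ‖cayS V f‖ ≤ ‖f‖ * ‖cayS V f‖ := by nlinarith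
    exact le_of_mul_le_mul_right this h

theorem pow_succ_apply' (T : Op d) (n : ℕ) (f : L2 d) : (T ^ (n + 1)) f = T ((T ^ n) f) := by
  rw [pow_succ']
  rfl

theorem norm_cay_pow (V : Cfg d) (n : ℕ) (f : L2 d) : ‖(cay V ^ n) f‖ = ‖f‖ := by
  induction n with
  | zero => simp
  | succ n ih => rw [pow_succ_apply', norm_cay, ih]

theorem norm_cayS_pow (V : Cfg d) (n : ℕ) (f : L2 d) : ‖(cayS V ^ n) f‖ ≤ ‖f‖ := by
  induction n with
  | zero => simp
  | succ n ih =>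
    rw [pow_succ_apply']
    exact (norm_cayS_le _ _).trans ih

theorem inner_cayS_pow (V : Cfg d) (n : ℕ) (f g : L2 d) :
    ⟪f, (cayS V ^ n) g⟫_ℂ = ⟪(cay V ^ n) f, g⟫_ℂ := by
  induction n generalizing g with
  | zero => simp
  | succ n ih =>
    rw [pow_succ_apply' (cay V), inner_cay, ← ih]
    rfl

theorem avg_apply (V : Cfg d) (N : ℕ) (B : Op d) (f : L2 d) :
    avg V N B f = ((N : ℂ) + 1)⁻¹ •
      ∑ n ∈ Finset.range (N + 1), (cayS V ^ n) (B ((cay V ^ n) f)) := by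
  unfold avg
  rw [_root_.smul_apply, _root_.sum_apply]
  rfl

theorem norm_N (N : ℕ) : ‖((N : ℂ) + 1)⁻¹‖ = ((N : ℝ) + 1)⁻¹ := by
  rw [norm_inv]
  congr 1
  have : ((N : ℂ) + 1) = (((N : ℝ) + 1 : ℝ) : ℂ) := by push_cast; rfl
  rw [this, Complex.norm_real, Real.norm_of_nonneg (by positivity)]

theorem norm_avg_le (V : Cfg d) (N : ℕ) (B : Op d) {C : ℝ} (hB : ‖B‖ ≤ C) (f : L2 d) :
    ‖avg V N B f‖ ≤ C * ‖f‖ := by
  have hC : 0 ≤ C := (norm_nonneg B).trans hB
  rw [avg_apply, norm_smul, norm_N]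
  have h : ‖∑ n ∈ Finset.range (N + 1), (cayS V ^ n) (B ((cay V ^ n) f))‖ ≤
      ((N : ℝ) + 1) * (C * ‖f‖) := by
    refine (norm_sum_le _ _).trans ?_
    have : ∀ n ∈ Finset.range (N + 1), ‖(cayS V ^ n) (B ((cay V ^ n) f))‖ ≤ C * ‖f‖ := by
      intro n _
      refine (norm_cayS_pow _ _ _).trans ((B.le_opNorm _).trans ?_)
      rw [norm_cay_pow]
      gcongr
    refine (Finset.sum_le_sum this).trans ?_
    rw [Finset.sum_const, Finset.card_range, nsmul_eq_mul]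
    push_cast
    exact le_rfl
  have hp : (0 : ℝ) < (N : ℝ) + 1 := by positivity
  calc ((N : ℝ) + 1)⁻¹ * _ ≤ ((N : ℝ) + 1)⁻¹ * (((N : ℝ) + 1) * (C * ‖f‖)) := by gcongr
    _ = C * ‖f‖ := by field_simp

theorem inner_avg (V : Cfg d) (N : ℕ) (B : Op d) (f g : L2 d) :
    ⟪f, avg V N B g⟫_ℂ = ((N : ℂ) + 1)⁻¹ *
      ∑ n ∈ Finset.range (N + 1), ⟪(cay V ^ n) f, B ((cay V ^ n) g)⟫_ℂ := by
  rw [avg_apply, inner_smul_right, inner_sum]
  congr 1
  apply Finset.sum_congr rfl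
  intro n _
  rw [inner_cayS_pow]

/-! ### box eigenvectors -/

/-- the defect of a box eigenvector -/
def defect (Λ : Finset (Site d)) (φ : L2 d) : L2 d :=
  res ((Λ : Set (Site d))ᶜ) (Lap d (res ((bdry Λ : Finset (Site d)) : Set (Site d)) φ))

theorem defect_eq {V : Cfg d} {Λ : Finset (Site d)} {E : ℝ} {φ : L2 d}
    (h : IsBoxEigen V Λ E φ) (z : ℂ) (x : Site d) :
    lap φ x + ((V x : ℂ) - z) * φ x = ((E : ℂ) - z) * φ x + defect Λ φ x := by
  classical
  unfold defect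
  rw [res_apply]
  by_cases hx : x ∈ Λ
  · rw [if_neg (by simpa using hx)]
    have := h.2 x hx
    linear_combination this
  · rw [if_pos (by simpa using hx), h.1 x hx, Lap_apply, mul_zero, mul_zero, add_zero, zero_add]
    unfold lap
    apply Finset.sum_congr rfl
    intro i _
    have e1 : res ((bdry Λ : Finset (Site d)) : Set (Site d)) φ (x + Pi.single i 1) =
        φ (x + Pi.single i 1) := by
      rw [res_apply]
      split_ifs with h1
      · rfl
      · by_cases h2 : x + Pi.single i 1 ∈ Λ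
        · exfalso
          apply h1
          simp only [Finset.mem_coe]
          unfold bdry
          rw [Finset.mem_filter]
          refine ⟨h2, i, Or.inr ?_⟩
          rwa [add_sub_cancel_right]
        · rw [h.1 _ h2]
    have e2 : res ((bdry Λ : Finset (Site d)) : Set (Site d)) φ (x - Pi.single i 1) =
        φ (x - Pi.single i 1) := by
      rw [res_apply]
      split_ifs with h1
      · rfl
      · by_cases h2 : x - Pi.single i 1 ∈ Λ
        · exfalso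
          apply h1
          simp only [Finset.mem_coe]
          unfold bdry
          rw [Finset.mem_filter]
          refine ⟨h2, i, Or.inl ?_⟩
          rwa [sub_add_cancel]
        · rw [h.1 _ h2]
    rw [e1, e2]

theorem G_box {V : Cfg d} {Λ : Finset (Site d)} {E : ℝ} {φ : L2 d}
    (h : IsBoxEigen V Λ E φ) {z : ℂ} (hz : z.im ≠ 0) :
    G V z φ = ((E : ℂ) - z)⁻¹ • φ - ((E : ℂ) - z)⁻¹ • G V z (defect Λ φ) := by
  have h1 : φ = G V z (((E : ℂ) - z) • φ + defect Λ φ) := by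
    apply G_unique hz
    intro x
    rw [defect_eq h z x]
    rfl
  have h2 := real_sub_ne hz E
  have h3 : ((E : ℂ) - z)⁻¹ • φ = G V z φ + ((E : ℂ) - z)⁻¹ • G V z (defect Λ φ) := by
    conv_lhs => rw [h1]
    rw [map_add, map_smul, smul_add, smul_smul, inv_mul_cancel₀ h2, one_smul]
  rw [h3]
  abel

theorem norm_G_box {V : Cfg d} {Λ : Finset (Site d)} {E : ℝ} {φ : L2 d}
    (h : IsBoxEigen V Λ E φ) {z : ℂ} (hz : z.im ≠ 0) :
    ‖G V z φ - ((E : ℂ) - z)⁻¹ • φ‖ ≤ |z.im|⁻¹ * |z.im|⁻¹ * ‖defect Λ φ‖ := by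
  rw [G_box h hz]
  have : ((E : ℂ) - z)⁻¹ • φ - ((E : ℂ) - z)⁻¹ • G V z (defect Λ φ) - ((E : ℂ) - z)⁻¹ • φ =
    -(((E : ℂ) - z)⁻¹ • G V z (defect Λ φ)) := by abel
  rw [this, norm_neg, norm_smul, mul_assoc]
  gcongr
  · exact norm_inv_le hz E
  · exact (isRes_G V).norm_le' hz _

/-- the eigenvalue of the Cayley transform -/
def cu (E : ℝ) : ℂ := 1 - 2 * Complex.I * ((E : ℂ) - (-Complex.I))⁻¹

theorem norm_cay_box {V : Cfg d} {Λ : Finset (Site d)} {E : ℝ} {φ : L2 d}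
    (h : IsBoxEigen V Λ E φ) : ‖cay V φ - cu E • φ‖ ≤ 2 * ‖defect Λ φ‖ := by
  have h1 := norm_G_box h nI_im_ne
  rw [cay_apply]
  have e : φ - (2 * Complex.I) • G V (-Complex.I) φ - cu E • φ =
      -((2 * Complex.I) • (G V (-Complex.I) φ - ((E : ℂ) - (-Complex.I))⁻¹ • φ)) := by
    unfold cu
    module
  rw [e, norm_neg, norm_smul]
  have h2 : ‖(2 * Complex.I : ℂ)‖ = 2 := by simp
  rw [h2]
  simp only [Complex.neg_im, Complex.I_im, abs_neg, abs_one, inv_one, mul_one, one_mul] at h1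
  gcongr

theorem cu_eq (E : ℝ) : cu E = ((E : ℂ) - Complex.I) * ((E : ℂ) + Complex.I)⁻¹ := by
  have h : (E : ℂ) + Complex.I ≠ 0 := by
    have := real_sub_ne nI_im_ne E
    rwa [sub_neg_eq_add] at this
  unfold cu
  rw [sub_neg_eq_add]
  field_simp
  ring

theorem norm_cu (E : ℝ) : ‖cu E‖ = 1 := by
  rw [cu_eq, norm_mul, norm_inv]
  have h : ‖(E : ℂ) - Complex.I‖ = ‖(E : ℂ) + Complex.I‖ := by
    rw [← RCLike.norm_conj ((E : ℂ) + Complex.I)]
    congr 1
    simp [sub_eq_add_neg]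
  rw [h]
  apply mul_inv_cancel₀
  have := real_sub_ne nI_im_ne E
  rw [sub_neg_eq_add] at this
  exact (norm_pos_iff.2 this).ne'

theorem cu_sub (E F : ℝ) : ‖cu E - cu F‖ ≤ 2 * |E - F| := by
  have hE := real_sub_ne nI_im_ne E
  have hF := real_sub_ne nI_im_ne F
  have e : cu E - cu F = 2 * Complex.I * (((E : ℂ) - F) *
      (((E : ℂ) - (-Complex.I))⁻¹ * ((F : ℂ) - (-Complex.I))⁻¹)) := by
    unfold cu
    field_simp
    ring
  have h1 : ‖(2 * Complex.I : ℂ)‖ = 2 := by simp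
  rw [e, norm_mul (2 * Complex.I) _, h1, norm_mul ((E : ℂ) - F) _,
    norm_mul (((E : ℂ) - (-Complex.I))⁻¹) _]
  have h2 : ‖((E : ℂ) - F)‖ = |E - F| := by
    rw [← Complex.ofReal_sub, Complex.norm_real, Real.norm_eq_abs]
  have h3 := norm_inv_le nI_im_ne E
  have h4 := norm_inv_le nI_im_ne F
  simp only [Complex.neg_im, Complex.I_im, abs_neg, abs_one, inv_one] at h3 h4
  rw [h2]
  have h5 : ‖((E : ℂ) - (-Complex.I))⁻¹‖ * ‖((F : ℂ) - (-Complex.I))⁻¹‖ ≤ 1 := by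
    calc _ ≤ (1:ℝ) * 1 := by gcongr
      _ = 1 := by ring
  have h6 : |E - F| * (‖((E : ℂ) - (-Complex.I))⁻¹‖ * ‖((F : ℂ) - (-Complex.I))⁻¹‖) ≤
      |E - F| * 1 := by gcongr
  nlinarith

/-- the error after `n` steps -/
def er (V : Cfg d) (E : ℝ) (φ : L2 d) (n : ℕ) : L2 d := (cay V ^ n) φ - (cu E) ^ n • φ

theorem norm_er {V : Cfg d} {Λ : Finset (Site d)} {E : ℝ} {φ : L2 d}
    (h : IsBoxEigen V Λ E φ) (n : ℕ) : ‖er V E φ n‖ ≤ 2 * n * ‖defect Λ φ‖ := by
  induction n with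
  | zero => simp [er]
  | succ n ih =>
    have e : er V E φ (n + 1) = cay V (er V E φ n) + (cu E) ^ n • (cay V φ - cu E • φ) := by
      unfold er
      rw [pow_succ_apply', map_sub, map_smul, smul_sub, smul_smul, ← pow_succ]
      abel
    rw [e]
    refine (norm_add_le _ _).trans ?_
    rw [norm_cay, norm_smul, norm_pow, norm_cu, one_pow, one_mul]
    have h2 := norm_cay_box h
    push_cast
    linarith

/-! ### rational functions -/

/-- bound for the values -/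
def bd1 (p : RF) : ℝ := ∑ k, ‖p.a k‖ * |(p.w k).im|⁻¹

/-- bound for the defects -/
def bd2 (p : RF) : ℝ := ∑ k, ‖p.a k‖ * (|(p.w k).im|⁻¹ * |(p.w k).im|⁻¹)

theorem bd1_nonneg (p : RF) : 0 ≤ bd1 p := by unfold bd1; positivity
theorem bd2_nonneg (p : RF) : 0 ≤ bd2 p := by unfold bd2; positivity

theorem norm_ev_le (p : RF) (E : ℝ) : ‖p.ev E‖ ≤ bd1 p := by
  unfold RF.ev bd1
  refine (norm_sum_le _ _).trans (Finset.sum_le_sum fun k _ => ?_)
  rw [div_eq_mul_inv, norm_mul]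
  gcongr
  exact norm_inv_le (p.hw k) E

theorem op_apply (p : RF) (V : Cfg d) (f : L2 d) :
    p.op V f = ∑ k, p.a k • G V (p.w k) f := by
  unfold RF.op
  rw [_root_.sum_apply]
  rfl

theorem norm_op_le (p : RF) (V : Cfg d) (f : L2 d) : ‖p.op V f‖ ≤ bd1 p * ‖f‖ := by
  rw [op_apply]
  unfold bd1
  rw [Finset.sum_mul]
  refine (norm_sum_le _ _).trans (Finset.sum_le_sum fun k _ => ?_)
  rw [norm_smul, mul_assoc]
  gcongr
  exact (isRes_G V).norm_le' (p.hw k) _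

theorem norm_op_box {V : Cfg d} {Λ : Finset (Site d)} {E : ℝ} {φ : L2 d}
    (h : IsBoxEigen V Λ E φ) (p : RF) :
    ‖p.op V φ - p.ev E • φ‖ ≤ bd2 p * ‖defect Λ φ‖ := by
  have e : p.op V φ - p.ev E • φ =
      ∑ k, p.a k • (G V (p.w k) φ - ((E : ℂ) - p.w k)⁻¹ • φ) := by
    rw [op_apply]
    unfold RF.ev
    rw [Finset.sum_smul, ← Finset.sum_sub_distrib]
    apply Finset.sum_congr rfl
    intro k _
    rw [smul_sub, smul_smul, div_eq_mul_inv]
  rw [e]
  unfold bd2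
  rw [Finset.sum_mul]
  refine (norm_sum_le _ _).trans (Finset.sum_le_sum fun k _ => ?_)
  rw [norm_smul, mul_assoc]
  gcongr
  exact norm_G_box h (p.hw k)

/-! ### the sum of the defects -/

theorem sum_defect {Λ : Finset (Site d)} {n : ℕ} {φ : Fin n → L2 d}
    (hφ : Orthonormal ℂ φ) :
    ∑ j, ‖defect Λ (φ j)‖ ^ 2 ≤ ‖Lap d‖ ^ 2 * ((bdry Λ).card : ℝ) := by
  have h1 : ∀ j, ‖defect Λ (φ j)‖ ^ 2 ≤ ‖Lap d‖ ^ 2 * ∑ x ∈ bdry Λ, ‖φ j x‖ ^ 2 := by
    intro j
    rw [← norm_sq_res, ← mul_pow]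
    unfold defect
    have := (norm_res_le ((Λ : Set (Site d))ᶜ)
      (Lap d (res ((bdry Λ : Finset (Site d)) : Set (Site d)) (φ j)))).trans
      ((Lap d).le_opNorm _)
    gcongr
  refine (Finset.sum_le_sum fun j _ => h1 j).trans ?_
  rw [← Finset.mul_sum, Finset.sum_comm]
  gcongr
  have h2 : ∀ x ∈ bdry Λ, ∑ j, ‖φ j x‖ ^ 2 ≤ (1 : ℝ) := by
    intro x _
    have h3 := bessel' hφ (del x)
    rw [norm_del, one_pow] at h3
    refine le_trans (le_of_eq ?_) h3
    apply Finset.sum_congr rfl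
    intro j _
    rw [inner_del_left]
  refine (Finset.sum_le_sum h2).trans ?_
  simp

end Pool.Agent.Helper55_QE
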